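import Mathlib
import Pool.Agent.H33.SosDefs
import Pool.Agent.H33.Sos1

namespace Pool.Agent.Results.MP_f19a21_co.Q1
open Filter Finset Pool.Agent.H33.Sos
open scoped Classical

lemma edges_le (n r : ℕ) [NeZero n] : (cyc n r).edgeSet.ncard ≤ n * (r + 1) := by
  have h : (cyc n r).edgeSet ⊆ (fun p : ZMod n × ℕ => s(p.1, p.1 + (p.2 : ZMod n))) ''
      ((univ ×ˢ range (r + 1) : Finset (ZMod n × ℕ)) : Set (ZMod n × ℕ)) := by
    intro e he
    induction e using Sym2.ind with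
    | h x y =>
      rcases he.2 with h | h
      · exact ⟨(y, (x - y).val), by simp; omega, by simp [Sym2.eq_swap]⟩
      · exact ⟨(x, (y - x).val), by simp; omega, by simp⟩
  refine (Set.ncard_le_ncard h (Set.toFinite _)).trans ((Set.ncard_image_le (Set.toFinite _)).trans ?_)
  rw [Set.ncard_coe_finset, card_product, card_univ, ZMod.card, card_range]

lemma f_mem (n r : ℕ) [NeZero n] : n * (r + 1) + 1 ∈
    {m | ∀ K : SimpleGraph (ZMod n), K ≤ cyc n r → K.edgeSet.ncard = m → ¬ K.CliqueFree 3} := by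
  intro K hK h
  have := (Set.ncard_le_ncard (SimpleGraph.edgeSet_mono hK) (Set.toFinite _)).trans (edges_le n r)
  omega

lemma f_le (n r : ℕ) [NeZero n] : f n r ≤ n * (r + 1) + 1 := Nat.sInf_le (f_mem n r)

lemma f_spec (n r : ℕ) [NeZero n] (K : SimpleGraph (ZMod n)) (hK : K ≤ cyc n r)
    (h : f n r ≤ K.edgeSet.ncard) : ¬ K.CliqueFree 3 := by
  obtain ⟨s, hs, hc⟩ := Set.exists_subset_card_eq h
  have h1 : (SimpleGraph.fromEdgeSet s).edgeSet = s := by
    rw [SimpleGraph.edgeSet_fromEdgeSet]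
    ext e
    exact ⟨fun h => h.1, fun h => ⟨h, K.not_isDiag_of_mem_edgeSet (hs h)⟩⟩
  have h2 : SimpleGraph.fromEdgeSet s ≤ K := by
    rw [← SimpleGraph.edgeSet_subset_edgeSet, h1]; exact hs
  intro hf
  exact Nat.sInf_mem ⟨_, f_mem n r⟩ _ (h2.trans hK) (by rw [h1]; exact hc) (hf.anti h2)

lemma ratio_le (n r : ℕ) : (f n r : ℝ) / (r * n) ≤ 3 := by
  rcases Nat.eq_zero_or_pos n with rfl | hn
  · simp
  rcases Nat.eq_zero_or_pos r with rfl | hr
  · simp
  have : NeZero n := ⟨hn.ne'⟩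
  have h := f_le n r
  rw [div_le_iff₀ (by positivity)]
  have : f n r ≤ 3 * (r * n) := by nlinarith
  exact_mod_cast this

lemma ev (ε : ℝ) (hε : 0 < ε) : ∀ᶠ r : ℕ in atTop, ∀ᶠ n : ℕ in atTop,
    (f n r : ℝ) / (r * n) < c + ε := by
  have hb : ∀ r : ℕ, IsBoundedUnder (· ≤ ·) atTop (fun n : ℕ => (f n r : ℝ) / (r * n)) :=
    fun r => isBoundedUnder_of ⟨3, fun n => ratio_le n r⟩
  have h1 : ∀ r : ℕ, limsup (fun n : ℕ => (f n r : ℝ) / (r * n)) atTop ≤ 3 := fun r =>
    limsup_le_of_le (isCoboundedUnder_le_of_le atTop (x := 0) fun n => by positivity)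
      (Eventually.of_forall fun n => ratio_le n r)
  have h2 := eventually_lt_of_limsup_lt (show c < c + ε by linarith) (isBoundedUnder_of ⟨3, h1⟩)
  filter_upwards [h2] with r hr
  exact eventually_lt_of_limsup_lt hr (hb r)

def win (n r j : ℕ) (i : Fin (3 * r)) : ZMod n := ((j * r + i.val : ℕ) : ZMod n)

lemma win_inj (n r j : ℕ) (h : 3 * r ≤ n) : Function.Injective (win n r j) := by
  intro a b hab
  unfold win at hab
  push_cast at hab
  have h1 : ((a.val : ℕ) : ZMod n) = (b.val : ℕ) := add_left_cancel hab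
  rw [ZMod.natCast_eq_natCast_iff', Nat.mod_eq_of_lt (by omega), Nat.mod_eq_of_lt (by omega)] at h1
  exact Fin.ext h1

lemma near (n r : ℕ) [NeZero n] (a b : ZMod n) (h : a = b ∨ (cyc n r).Adj a b) :
    ∃ d ≤ 2 * r, b = a - r + (d : ℕ) := by
  rcases h with rfl | ⟨-, h | h⟩
  · exact ⟨r, by omega, by simp⟩
  · refine ⟨r - (a - b).val, by omega, ?_⟩
    rw [Nat.cast_sub h]; simp
  · refine ⟨r + (b - a).val, by omega, ?_⟩
    rw [Nat.cast_add, ZMod.natCast_zmod_val]; ring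

lemma cover (n r : ℕ) [NeZero n] (hr : 0 < r) (a : ZMod n) : ∃ j < n / r + 1,
    ∀ b, (a = b ∨ (cyc n r).Adj a b) → ∃ i, win n r j i = b := by
  refine ⟨(a - r).val / r, Nat.lt_succ_of_le (Nat.div_le_div_right (ZMod.val_lt _).le), fun b hb => ?_⟩
  obtain ⟨d, hd, rfl⟩ := near n r a b hb
  have := Nat.mod_lt (a - r).val hr
  refine ⟨⟨(a - r).val % r + d, by omega⟩, ?_⟩
  unfold win
  rw [← add_assoc, Nat.div_add_mod', Nat.cast_add, ZMod.natCast_zmod_val]

theorem result (V : Type) [Fintype V] (H : SimpleGraph V) (hH : H.chromaticNumber = 3)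
    (ε : ℝ) (hε : 0 < ε) : ∃ r0 : ℕ, ∀ r ≥ r0, ∃ n0 : ℕ, ∀ n ≥ n0,
      ∀ K : SimpleGraph (ZMod n), K ≤ cyc n r → (c + ε) * r * n ≤ K.edgeSet.ncard →
        H.IsContained K := by
  have hc : H.Colorable 3 := SimpleGraph.chromaticNumber_le_iff_colorable.1 (le_of_eq hH)
  obtain ⟨m0, hm⟩ := local_removal H hc (ε / 36) (by positivity)
  obtain ⟨r1, hr1⟩ := eventually_atTop.1 (ev (ε / 2) (by positivity))
  refine ⟨max (max r1 m0) 1, fun r hr => ?_⟩
  have h1 : r1 ≤ r := le_trans (le_trans (le_max_left _ _) (le_max_left _ _)) hr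
  have h2 : m0 ≤ r := le_trans (le_trans (le_max_right _ _) (le_max_left _ _)) hr
  have h3 : 0 < r := le_trans (le_max_right _ _) hr
  obtain ⟨n1, hn1⟩ := eventually_atTop.1 (hr1 r h1)
  refine ⟨max n1 (3 * r), fun n hn K hK hE => ?_⟩
  have h4 : 3 * r ≤ n := le_trans (le_max_right _ _) hn
  have h5 := hn1 n (le_trans (le_max_left _ _) hn)
  have : NeZero n := ⟨by omega⟩
  by_contra hno
  have hloc : ∀ j : ℕ, ∃ E : Finset (Sym2 (Fin (3 * r))),
      (#E : ℝ) ≤ ε / 36 * Fintype.card (Fin (3 * r)) ^ 2 ∧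
      ((K.comap (win n r j)).deleteEdges E).CliqueFree 3 := fun j =>
    hm _ (by rw [Fintype.card_fin]; omega) _ fun h =>
      hno (h.trans ⟨(SimpleGraph.Embedding.comap ⟨_, win_inj n r j h4⟩ K).toCopy⟩)
  choose E hE1 hE2 using hloc
  let D : Finset (Sym2 (ZMod n)) :=
    (range (n / r + 1)).biUnion fun j => (E j).image (Sym2.map (win n r j))
  have hD : (#D : ℝ) ≤ ε / 2 * r * n := by
    have e1 : (#D : ℝ) ≤ ∑ j ∈ range (n / r + 1), (#(E j) : ℝ) := by
      exact_mod_cast card_biUnion_le.trans (sum_le_sum fun j _ => card_image_le)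
    have e2 := e1.trans (sum_le_sum fun j _ => hE1 j)
    rw [sum_const, card_range, Fintype.card_fin, nsmul_eq_mul] at e2
    have e3 : (n / r + 1) * r ≤ 2 * n := by
      have := Nat.div_mul_le_self n r
      nlinarith
    have e4 : ((n / r + 1 : ℕ) : ℝ) * r ≤ 2 * n := by exact_mod_cast e3
    refine e2.trans ?_
    have e5 : ((n / r + 1 : ℕ) : ℝ) * (ε / 36 * ((3 * r : ℕ) : ℝ) ^ 2) =
        (((n / r + 1 : ℕ) : ℝ) * r) * (ε / 4 * r) := by push_cast; ring
    rw [e5]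
    calc _ ≤ (2 * n) * (ε / 4 * r) := by gcongr
      _ = _ := by ring
  refine f_spec n r (K.deleteEdges D) ((K.deleteEdges_le _).trans hK) ?_ ?_
  · rw [SimpleGraph.edgeSet_deleteEdges]
    have e1 := Set.ncard_le_ncard_sdiff_add_ncard K.edgeSet (D : Set _) (Finset.finite_toSet D)
    rw [Set.ncard_coe_finset] at e1
    have e2 : (K.edgeSet.ncard : ℝ) ≤ (K.edgeSet \ D).ncard + #D := by exact_mod_cast e1
    have hr' : (0 : ℝ) < r := by exact_mod_cast h3
    have hn' : (0 : ℝ) < n := by exact_mod_cast (by omega : 0 < n)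
    rw [div_lt_iff₀ (by positivity)] at h5
    have : (f n r : ℝ) ≤ (K.edgeSet \ D).ncard := by nlinarith
    exact_mod_cast this
  · intro s hs
    obtain ⟨a, b, d, hab, had, hbd, -⟩ := SimpleGraph.is3Clique_iff.1 hs
    rw [SimpleGraph.deleteEdges_adj] at hab had hbd
    obtain ⟨j, hj, hcov⟩ := cover n r h3 a
    obtain ⟨ia, rfl⟩ := hcov a (Or.inl rfl)
    obtain ⟨ib, rfl⟩ := hcov b (Or.inr (hK hab.1))
    obtain ⟨id, rfl⟩ := hcov d (Or.inr (hK had.1))
    have key : ∀ u v, K.Adj (win n r j u) (win n r j v) ∧ s(win n r j u, win n r j v) ∉ (D : Set _) →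
        ((K.comap (win n r j)).deleteEdges (E j)).Adj u v := by
      intro u v h
      rw [SimpleGraph.deleteEdges_adj]
      refine ⟨h.1, fun hm => h.2 ?_⟩
      rw [mem_coe, mem_biUnion]
      exact ⟨j, mem_range.2 hj, mem_image.2 ⟨_, hm, rfl⟩⟩
    exact hE2 j _ (SimpleGraph.is3Clique_triple_iff.2 ⟨key _ _ hab, key _ _ had, key _ _ hbd⟩)

end Pool.Agent.Results.MP_f19a21_co.Q1
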